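import Pool.Agent.Helper3.PR.Vol
import Pool.Agent.Helper84.MT.Vol

/-! A nonnegative variable which is typically at least `a` and has mean at most `a` is typically at most `a`. -/

set_option autoImplicit false

namespace Pool.Agent.Helper26.CLD

open Finset Filter Topology Pool.Agent.Helper69.RK Pool.Agent.Helper31.EC Pool.Agent.Helper31.EC.Sp
open Pool.Agent.Helper40.EL Pool.Agent.Helper89.LX Pool.Agent.Helper3.LF Pool.Agent.Helper84.MT
open Pool.Agent.Helper3.PR (pb_sum)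

noncomputable section

/-- one space -/
theorem pb_le_of_mean (F : FSp) (g : F.Ω → ℝ) {a δ e : ℝ} (he : 0 < e) (h0 : ∀ ω, F.μ ω ≠ 0 → 0 ≤ g ω)
    (hδ : 0 ≤ δ) (hm : ∑ ω, F.μ ω * g ω ≤ a + δ) (hb : F.pb (fun ω => ¬ a - δ ≤ g ω) ≤ δ) :
    F.pb (fun ω => ¬ g ω ≤ a + e) ≤ (2 * δ + |a| * δ) / e := by
  classical
  rw [le_div_iff₀ he]
  obtain ⟨P, hP⟩ : ∃ P : F.Ω → Prop, ∀ ω, P ω ↔ ¬ a - δ ≤ g ω := ⟨fun ω => ¬ a - δ ≤ g ω, fun _ => Iff.rfl⟩
  obtain ⟨R, hR⟩ : ∃ R : F.Ω → Prop, ∀ ω, R ω ↔ ¬ g ω ≤ a + e := ⟨fun ω => ¬ g ω ≤ a + e, fun _ => Iff.rfl⟩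
  have eP : F.pb (fun ω => ¬ a - δ ≤ g ω) = F.pb P := by
    congr 1
    funext ω
    exact propext (hP ω).symm
  have eR : F.pb (fun ω => ¬ g ω ≤ a + e) = F.pb R := by
    congr 1
    funext ω
    exact propext (hR ω).symm
  rw [eP] at hb
  rw [eR]
  have h1 : ∑ ω, F.μ ω * ((a - δ) - |a| * (if P ω then (1 : ℝ) else 0) +
      e * (if R ω then (1 : ℝ) else 0)) ≤ ∑ ω, F.μ ω * g ω := by
    refine Finset.sum_le_sum fun ω _ => ?_
    by_cases hω : F.μ ω = 0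
    · rw [hω, zero_mul, zero_mul]
    · apply mul_le_mul_of_nonneg_left _ (F.nn ω)
      have h2 := h0 ω hω
      have h3 := le_abs_self a
      by_cases h4 : a - δ ≤ g ω
      · rw [if_neg (fun h => (hP ω).1 h h4)]
        by_cases h5 : g ω ≤ a + e
        · rw [if_neg (fun h => (hR ω).1 h h5)]
          linarith
        · rw [if_pos ((hR ω).2 h5)]
          rw [not_le] at h5
          linarith
      · rw [if_pos ((hP ω).2 h4)]
        rw [not_le] at h4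
        have h5 : g ω ≤ a + e := by linarith
        rw [if_neg (fun h => (hR ω).1 h h5)]
        linarith
  have key : ∀ (b : ℝ) (P R : F.Ω → Prop), ∑ ω, F.μ ω * (b - |a| * (if P ω then (1 : ℝ) else 0) +
      e * (if R ω then (1 : ℝ) else 0)) = b - |a| * F.pb P + e * F.pb R := by
    intro b P R
    rw [pb_sum, pb_sum, Finset.mul_sum, Finset.mul_sum]
    have h3 : b = ∑ ω, F.μ ω * b := by rw [← Finset.sum_mul, Pool.Agent.Helper3.PR.sum_mu, one_mul]
    conv_rhs => rw [h3]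
    rw [← Finset.sum_sub_distrib, ← Finset.sum_add_distrib]
    exact Finset.sum_congr rfl fun ω _ => by ring
  rw [key (a - δ) P R] at h1
  have h3 := mul_le_mul_of_nonneg_left hb (abs_nonneg a)
  linarith

/-- TYPICAL UPPER BOUND from the mean and a typical lower bound -/
theorem typ_of_mean (F : ℕ → FSp) (g : ∀ k, (F k).Ω → ℝ) {a : ℝ} (h0 : ∀ᶠ k in UF, ∀ ω, (F k).μ ω ≠ 0 → 0 ≤ g k ω)
    (hub : UB (fun k => ∑ ω, (F k).μ ω * g k ω)) (hm : ul (fun k => ∑ ω, (F k).μ ω * g k ω) ≤ a)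
    (hlow : ∀ e : ℝ, 0 < e → Tendsto (fun k => (F k).pb (fun ω => ¬ a - e ≤ g k ω)) UF (𝓝 0)) (e : ℝ) (he : 0 < e) :
    Tendsto (fun k => (F k).pb (fun ω => ¬ g k ω ≤ a + e)) UF (𝓝 0) := by
  rw [Metric.tendsto_nhds]
  intro ε hε
  obtain ⟨δ, hδ, hδe⟩ : ∃ δ : ℝ, 0 < δ ∧ (2 * δ + |a| * δ) / e < ε := by
    refine ⟨ε * e / (2 * (2 + |a|)), by positivity, ?_⟩
    have h2 : 0 < 2 + |a| := by positivity
    have h1 : 2 * (ε * e / (2 * (2 + |a|))) + |a| * (ε * e / (2 * (2 + |a|))) = ε * e / 2 := by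
      field_simp
    rw [h1, div_lt_iff₀ he]
    nlinarith
  have h1 := (ul_tendsto hub).eventually (gt_mem_nhds (show ul (fun k => ∑ ω, (F k).μ ω * g k ω) < a + δ by linarith))
  have h2 := (hlow δ hδ).eventually (gt_mem_nhds hδ)
  filter_upwards [h0, h1, h2] with k a1 a2 a3
  rw [Real.dist_eq, sub_zero, abs_of_nonneg ((F k).pb_nonneg _)]
  exact (pb_le_of_mean (F k) (g k) he a1 hδ.le a2.le a3.le).trans_lt hδe

end

end Pool.Agent.Helper26.CLD
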