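import Pool.Agent.Helper26.CLD.Lin
import Pool.Agent.Helper26.CLD.Mn
import Pool.Agent.Helper69.DGR.Emb
import Pool.Agent.Helper36.AM.Dlow

/-! THE EXPONENTS OF THE FORMS OF A WINDOW whose hull is a box: if `l` is a label of the window `c` with a frame of
exponents `La` and the volume of the window is `M - Σ La`, every admissible form of the window has the exponents of the
box: `q` exponents `La j ≤ c` give `q` directions in which the form is at most `2 ^ (2 (c + o(1)) n)`. -/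

set_option autoImplicit false

namespace Pool.Agent.Helper26.CLD

open Finset Filter Topology Matrix Pool.Agent.Helper69.RK Pool.Agent.Helper31.EC Pool.Agent.Helper31.EC.Sp
open Pool.Agent.Helper40.EL Pool.Agent.Helper89.LX Pool.Agent.Helper3.LF Pool.Agent.Helper84.MT Pool.Agent.Helper36.AM
open Pool.Agent.Helper95.LF Pool.Agent.Helper7.GZ Pool.Agent.Helper26.OUT Pool.Agent.Helper81.DC
open Pool.Agent.Helper14.MC (gx vx vol_eq vx_UB)
open Pool.Agent.Helper69.DGR (upx upm upx_Adf Jq_upm upm_ge)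

noncomputable section

variable {S : Sp} {M : ℕ} {E : ℕ → ℕ} {ι : Type}

/-- determinants of forms above the form of the rows -/
theorem rows_det {P : Fin M → MvPolynomial (Fin M) ℝ} (tri : ∀ j, ∀ i ∈ (P j).vars, i < j) (x d : Fin M → ℝ)
    (hd : ∀ i, 0 < d i) {G : Matrix (Fin M) (Fin M) ℝ} (hG : PdM G) {κ : ℝ} (hκ : 0 < κ)
    (h : ∀ v, dP (fun i => MvPolynomial.C (d i)⁻¹ * inv P i) x v ⬝ᵥ dP (fun i => MvPolynomial.C (d i)⁻¹ * inv P i) x v ≤
      κ * (v ⬝ᵥ (G *ᵥ v))) : (∏ i, (d i)⁻¹) ^ 2 ≤ κ ^ M * G.det := by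
  obtain ⟨J, hJ⟩ : ∃ J, J = jac (fun i => MvPolynomial.C (d i)⁻¹ * inv P i) x := ⟨_, rfl⟩
  have hJd : J.det = ∏ i, (d i)⁻¹ := by rw [hJ]; exact jac_inv tri (fun i => (d i)⁻¹) x
  have hJ0 : J.det ≠ 0 := by
    rw [hJd]
    exact Finset.prod_ne_zero_iff.2 fun i _ => inv_ne_zero (hd i).ne'
  have hu : IsUnit J.det := isUnit_iff_ne_zero.2 hJ0
  have hJv : ∀ v, J *ᵥ v = dP (fun i => MvPolynomial.C (d i)⁻¹ * inv P i) x v := fun v => by rw [hJ]; exact jac_mul _ _ _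
  have hA0 : ∀ v, v ⬝ᵥ ((J.transpose * J) *ᵥ v) = (J *ᵥ v) ⬝ᵥ (J *ᵥ v) := by
    intro v
    rw [← Matrix.mulVec_mulVec, Matrix.dotProduct_mulVec, Matrix.vecMul_transpose]
  have hA : PdM (J.transpose * J) := by
    refine ⟨?_, fun v hv => ?_⟩
    · unfold Matrix.IsSymm
      rw [Matrix.transpose_mul, Matrix.transpose_transpose]
    · rw [hA0]
      refine self_pos fun h0 => hv ?_
      have h2 : J⁻¹ *ᵥ (J *ᵥ v) = v := by
        rw [Matrix.mulVec_mulVec, Matrix.nonsing_inv_mul _ hu, Matrix.one_mulVec]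
      rw [← h2, h0, Matrix.mulVec_zero]
  have h1 := det_le_pow hG hA hκ fun v => by
    rw [hA0, hJv]
    exact h v
  rw [Fintype.card_fin, Matrix.det_mul, Matrix.det_transpose, hJd] at h1
  rw [pow_two]
  exact h1

section box

variable {s : MSys S M E ι} {c : ℝ} {l : Lab S} {La : Fin M → ℝ} (f : Frm s.Q l La)

/-- the rows with values at the point -/
theorem row_dP (k : ℕ) (ω : (l k).T.Ω) (x v : Fin M → ℝ) :
    dP (fun i => MvPolynomial.C (S.dl (La i) k)⁻¹ * inv (f.P k ω) i) x v ⬝ᵥ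
      dP (fun i => MvPolynomial.C (S.dl (La i) k)⁻¹ * inv (f.P k ω) i) x v =
      ∑ i, (MvPolynomial.eval x (dir v (f.row k ω i))) ^ 2 := by
  unfold dotProduct
  exact Finset.sum_congr rfl fun i _ => (pow_two _).symm

/-- THE COMMON LABEL of an optimal form and of the rows: the optimal form is above the form of the rows -/
theorem box_dom [Finite ι] (hl : s.DMc c l) (h0 : ∀ i, 0 ≤ La i) (h1 : ∀ i, La i ≤ 1) {κ : ℕ}
    (hκ : ∀ k ω j, (f.P k ω j).totalDegree ≤ κ) {D : ℕ} (hD : (κ + 1) ^ M ≤ D) {z : ∀ k, FD (S.F k) (Mon M D)}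
    (hz : (gaq s.Q D).Optf (s.cnd c) z) (e : ℝ) (he : 0 < e) :
    Tendsto (fun k => ((z k).l.am (l k)).sp.pb (fun w => ¬ ∀ v : Fin M → ℝ,
      dP (fun i => MvPolynomial.C (S.dl (La i) k)⁻¹ * inv (f.P k (((z k).l.am (l k)).p2.π w)) i)
        (s.Q.v k ((z k).l.p.π (((z k).l.am (l k)).p1.π w))) v ⬝ᵥ
      dP (fun i => MvPolynomial.C (S.dl (La i) k)⁻¹ * inv (f.P k (((z k).l.am (l k)).p2.π w)) i)
        (s.Q.v k ((z k).l.p.π (((z k).l.am (l k)).p1.π w))) v ≤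
      2 ^ (e * (S.F k).n) * (v ⬝ᵥ ((1 + Jq (S.dl 1 k) ((z k).g (((z k).l.am (l k)).p1.π w))
        (s.Q.v k ((z k).l.p.π (((z k).l.am (l k)).p1.π w)))) *ᵥ v)))) UF (𝓝 0) := by
  have hrd : ∀ k ω i, (f.row k ω i).totalDegree ≤ D := fun k ω i => (f.row_deg hκ k ω i).trans hD
  obtain ⟨K, hK, hb⟩ := f.row_bd h0 h1 hκ D
  have hAd := rwx_Adf (A := s.cnd c) hl s.Q f.row hrd f.row_ms hK (by
    refine typ_mono (S := l.sp) (Typ_true (S := l.sp)) ?_
    filter_upwards [hb] with n hn ω hω _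
    exact (hn ω hω).1)
  obtain ⟨K', hK', hgood⟩ := rwx_good l s.Q f.row hrd f.row_ms hK
  have h2 := Gau.Optf.dom (gaq s.Q D) hz hAd e he
  refine squeeze_zero' (Eventually.of_forall fun k => FSp.pb_nonneg _ _) ?_ h2
  filter_upwards [hb, hgood, hz.1 1 one_pos] with k a1 a2 a3
  apply FSp.pb_mono
  intro w hw h3 h4
  apply h3
  intro v
  obtain ⟨y, hy⟩ : ∃ y, y = rwx l D (gaq s.Q D).cp f.row := ⟨_, rfl⟩
  have e1 : (z k).l.p.π (((z k).l.am (l k)).p1.π w) = (l k).p.π (((z k).l.am (l k)).p2.π w) :=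
    (z k).jj_supp (rwx l D (gaq s.Q D).cp f.row k) w hw
  have hω1 := ((z k).l.am (l k)).p1.supp w hw
  have hω2 := ((z k).l.am (l k)).p2.supp w hw
  have hg := ((a2 _ hω2).2 (a1 _ hω2).1).1
  rw [row_dP f]
  have h5 := rwm_Jq (D := D) (f.row k (((z k).l.am (l k)).p2.π w)) (fun i => hrd k _ i) (S.dl 1 k)
    (s.Q.v k ((z k).l.p.π (((z k).l.am (l k)).p1.π w))) v
  refine h5.trans ?_
  have hC := (a3.2.1 _ hω1).1
  have h6 : v ⬝ᵥ (Jq (S.dl 1 k) (rwm D (f.row k (((z k).l.am (l k)).p2.π w)))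
      (s.Q.v k ((z k).l.p.π (((z k).l.am (l k)).p1.π w))) *ᵥ v) ≤ 2 ^ (e * (S.F k).n) *
      (v ⬝ᵥ (Jq (S.dl 1 k) ((z k).g (((z k).l.am (l k)).p1.π w))
        (s.Q.v k ((z k).l.p.π (((z k).l.am (l k)).p1.π w))) *ᵥ v)) := by
    rw [Jq_qf, Jq_qf, Finset.mul_sum]
    refine Finset.sum_le_sum fun j _ => ?_
    rw [← hg]
    exact h4 _
  refine h6.trans (mul_le_mul_of_nonneg_left ?_ (by positivity))
  rw [dv_add, Matrix.one_mulVec]
  have := self_nonneg' v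
  linarith

theorem prod_dl (La : Fin M → ℝ) (k : ℕ) : ∏ i, (S.dl (La i) k)⁻¹ = 2 ^ ((∑ i, La i) * (S.F k).n) := by
  rw [Finset.sum_mul, Real.rpow_sum_of_pos (by norm_num)]
  exact Finset.prod_congr rfl fun j _ => dl_inv_eq _ _

/-- typical LOWER bound of the exponents of an optimal form -/
theorem box_low [Finite ι] (hl : s.DMc c l) (h0 : ∀ i, 0 ≤ La i) (h1 : ∀ i, La i ≤ 1) {κ : ℕ}
    (hκ : ∀ k ω j, (f.P k ω j).totalDegree ≤ κ) {D : ℕ} (hD : (κ + 1) ^ M ≤ D) {z : ∀ k, FD (S.F k) (Mon M D)}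
    (hz : (gaq s.Q D).Optf (s.cnd c) z) (e : ℝ) (he : 0 < e) :
    Tendsto (fun k => (z k).l.T.pb (fun ω => ¬ ∑ i, La i - e ≤ gx s.Q k ((z k).l.p.π ω) ((z k).g ω))) UF (𝓝 0) := by
  have he' : 0 < 2 * e / (M + 1) := by positivity
  have h2 := box_dom f hl h0 h1 hκ hD hz (2 * e / (M + 1)) he'
  refine squeeze_zero' (Eventually.of_forall fun k => FSp.pb_nonneg _ _) ?_ h2
  filter_upwards [hz.1 1 one_pos] with k a3
  rw [← pb_push ((z k).l.am (l k)).p1 (fun ω => ¬ ∑ i, La i - e ≤ gx s.Q k ((z k).l.p.π ω) ((z k).g ω))]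
  apply FSp.pb_mono
  intro w hw h3 h4
  apply h3
  have hω1 := ((z k).l.am (l k)).p1.supp w hw
  have hC := (a3.2.1 _ hω1).1
  have hn := (S.F k).pos
  have hPd : PdM (1 + Jq (S.dl 1 k) ((z k).g (((z k).l.am (l k)).p1.π w))
        (s.Q.v k ((z k).l.p.π (((z k).l.am (l k)).p1.π w)))) := one_Jq_pd _ hC.1 hC.psd.2 _
  have h5 := rows_det (f.tri k (((z k).l.am (l k)).p2.π w)) _ (fun i => S.dl (La i) k) (fun i => S.dl_pos _ _) hPd
    (show (0 : ℝ) < 2 ^ (2 * e / (M + 1) * (S.F k).n) by positivity) h4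
  have h6 : (∏ i, (S.dl (La i) k)⁻¹) ^ 2 = 2 ^ (2 * (∑ i, La i) * (S.F k).n) := by
    rw [prod_dl, ← Real.rpow_natCast, ← Real.rpow_mul (by norm_num)]
    congr 1
    push_cast
    ring
  rw [h6, ← Real.rpow_natCast, ← Real.rpow_mul (by norm_num)] at h5
  have hdp := hPd.det_pos
  have h7 := Real.logb_le_logb_of_le (b := 2) (by norm_num) (by positivity) h5
  rw [Real.logb_rpow (by norm_num) (by norm_num), Real.logb_mul (by positivity) hdp.ne',
    Real.logb_rpow (by norm_num) (by norm_num)] at h7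
  show _ ≤ Real.logb 2 (GQ (S.dl 1 k) ((z k).g (((z k).l.am (l k)).p1.π w))
    (s.Q.v k ((z k).l.p.π (((z k).l.am (l k)).p1.π w)))) / (2 * (S.F k).n)
  have h8 : Real.logb 2 (GQ (S.dl 1 k) ((z k).g (((z k).l.am (l k)).p1.π w))
    (s.Q.v k ((z k).l.p.π (((z k).l.am (l k)).p1.π w)))) =
    Real.logb 2 (1 + Jq (S.dl 1 k) ((z k).g (((z k).l.am (l k)).p1.π w))
        (s.Q.v k ((z k).l.p.π (((z k).l.am (l k)).p1.π w)))).det := rfl
  rw [h8, le_div_iff₀ (by positivity)]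
  have h9 : 2 * e / (M + 1) * (S.F k).n * M ≤ 2 * e * (S.F k).n := by
    have h10 : 2 * e / (M + 1) * (S.F k).n * M = (2 * e * (S.F k).n) * (M / (M + 1)) := by
      field_simp
    rw [h10]
    apply mul_le_of_le_one_right (by positivity)
    rw [div_le_one (by positivity)]
    linarith
  nlinarith

/-- typical UPPER bound of the exponents of an optimal form, if the volume of the window is the volume of the box -/
theorem box_up [Finite ι] (hl : s.DMc c l) (h0 : ∀ i, 0 ≤ La i) (h1 : ∀ i, La i ≤ 1) {κ : ℕ}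
    (hκ : ∀ k ω j, (f.P k ω j).totalDegree ≤ κ) (hv : (M : ℝ) - ∑ i, La i ≤ volO s c) {D : ℕ}
    (hD : (κ + 1) ^ M ≤ D) {z : ∀ k, FD (S.F k) (Mon M D)} (hz : (gaq s.Q D).Optf (s.cnd c) z) (e : ℝ) (he : 0 < e) :
    Tendsto (fun k => (z k).l.T.pb (fun ω => ¬ gx s.Q k ((z k).l.p.π ω) ((z k).g ω) ≤ ∑ i, La i + e)) UF (𝓝 0) := by
  obtain ⟨C, hC0, hC⟩ := gx_bd hz.1
  have hm : ul (vx s.Q z) ≤ ∑ i, La i := by
    have h2 := s.vol_eq hz
    rw [vol_eq] at h2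
    have h3 := Pool.Agent.Helper84.MT.volO_le s D c
    linarith
  exact typ_of_mean (fun k => (z k).l.T) (fun k ω => gx s.Q k ((z k).l.p.π ω) ((z k).g ω)) (hC.mono fun k hk ω hω =>
    (hk ω hω).1) (vx_UB hz.1) hm (box_low f hl h0 h1 hκ hD hz) e he

/-- EXPONENTS OF THE OPTIMAL FORM -/
theorem udf_opt [Finite ι] (hl : s.DMc c l) (h0 : ∀ i, 0 ≤ La i) (h1 : ∀ i, La i ≤ 1) {κ : ℕ}
    (hκ : ∀ k ω j, (f.P k ω j).totalDegree ≤ κ) (hv : (M : ℝ) - ∑ i, La i ≤ volO s c) {D : ℕ}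
    (hD : (κ + 1) ^ M ≤ D) {z : ∀ k, FD (S.F k) (Mon M D)} (hz : (gaq s.Q D).Optf (s.cnd c) z) {q : ℕ}
    (σ : Fin q → Fin M) (hσ : Function.Injective σ) (hσc : ∀ i, La (σ i) ≤ c) : UDf s.Q q c z := by
  intro e he
  obtain ⟨K, hK, hb⟩ := f.row_bd h0 h1 hκ D
  have he' : 0 < e / (2 * (M + 1)) := by positivity
  have h2 := box_dom f hl h0 h1 hκ hD hz (e / (2 * (M + 1))) he'
  have h3 := box_up f hl h0 h1 hκ hv hD hz (e / 4) (by linarith)
  have h4 := h2.add h3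
  rw [add_zero] at h4
  have hSub : S.Sub (fun k => q * ((1 + M * K k) ^ M) ^ 2) :=
    (S.Sub_const (Nat.cast_nonneg _)).mul (Sub_pow' (Sub_pow' ((S.Sub_const zero_le_one).add
      ((S.Sub_const (Nat.cast_nonneg _)).mul hK)) M) 2)
  show Tendsto (fun k => (z k).l.T.pb (fun ω => ¬ UDp q (Jq (S.dl 1 k) ((z k).g ω) (s.Q.v k ((z k).l.p.π ω)))
    (2 ^ (2 * (c + e) * (S.F k).n)))) UF (𝓝 0)
  refine squeeze_zero' (Eventually.of_forall fun k => FSp.pb_nonneg _ _) ?_ h4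
  filter_upwards [hz.1 1 one_pos, hb, hSub.eventually_le he, hK.1] with k a3 a1 a4 hK0
  rw [← pb_push ((z k).l.am (l k)).p1 (fun ω => ¬ UDp q (Jq (S.dl 1 k) ((z k).g ω) (s.Q.v k ((z k).l.p.π ω)))
    (2 ^ (2 * (c + e) * (S.F k).n))), ← pb_push ((z k).l.am (l k)).p1 (fun ω => ¬ gx s.Q k ((z k).l.p.π ω)
    ((z k).g ω) ≤ ∑ i, La i + e / 4)]
  refine le_trans (FSp.pb_mono _ ?_) (pb_or _ _ _)
  intro w hw h6
  by_contra hc
  rw [not_or, not_not, not_not] at hc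
  obtain ⟨c1, c2⟩ := hc
  apply h6
  have hω1 := ((z k).l.am (l k)).p1.supp w hw
  have hω2 := ((z k).l.am (l k)).p2.supp w hw
  have e1 : (z k).l.p.π (((z k).l.am (l k)).p1.π w) = (l k).p.π (((z k).l.am (l k)).p2.π w) :=
    (z k).jj_supp (rwx l D (gaq s.Q D).cp f.row k) w hw
  have hC := (a3.2.1 _ hω1).1
  have hn := (S.F k).pos
  have hPd : PdM (1 + Jq (S.dl 1 k) ((z k).g (((z k).l.am (l k)).p1.π w))
        (s.Q.v k ((z k).l.p.π (((z k).l.am (l k)).p1.π w)))) := one_Jq_pd _ hC.1 hC.psd.2 _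
  have hdet : (1 + Jq (S.dl 1 k) ((z k).g (((z k).l.am (l k)).p1.π w))
        (s.Q.v k ((z k).l.p.π (((z k).l.am (l k)).p1.π w)))).det ≤
        2 ^ (e / 2 * (S.F k).n) * (∏ i, (S.dl (La i) k)⁻¹) ^ 2 := by
    have c2' : Real.logb 2 (1 + Jq (S.dl 1 k) ((z k).g (((z k).l.am (l k)).p1.π w))
        (s.Q.v k ((z k).l.p.π (((z k).l.am (l k)).p1.π w)))).det / (2 * (S.F k).n) ≤ ∑ i, La i + e / 4 := c2
    rw [div_le_iff₀ (by positivity), Real.logb_le_iff_le_rpow (by norm_num) hPd.det_pos] at c2'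
    refine c2'.trans (le_of_eq ?_)
    rw [prod_dl, ← Real.rpow_natCast, ← Real.rpow_mul (by norm_num), ← Real.rpow_add (by norm_num)]
    congr 1
    push_cast
    ring
  have hL := (a1 _ hω2).2
  rw [← e1] at hL
  have key := UDp_rows (f.tri k (((z k).l.am (l k)).p2.π w)) (s.Q.v k ((z k).l.p.π (((z k).l.am (l k)).p1.π w)))
    (fun i => S.dl (La i) k) (fun i => S.dl_pos _ _) hK0 hL hPd.1
    (show (0 : ℝ) < 2 ^ (e / (2 * (M + 1)) * (S.F k).n) by positivity)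
    (show (0 : ℝ) ≤ 2 ^ (e / 2 * (S.F k).n) by positivity) c1 hdet σ hσ (S.dl_pos c k) (fun i => S.dl_anti (hσc i) k)
  refine UDp.mono (c := 1) key zero_le_one (fun v => ?_) ?_
  · rw [one_mul, dv_add, Matrix.one_mulVec]
    have := self_nonneg' v
    linarith
  · rw [one_mul]
    have t1 : ((2 : ℝ) ^ (e / (2 * (M + 1)) * (S.F k).n)) ^ M ≤ 2 ^ (e / 2 * (S.F k).n) := by
      rw [← Real.rpow_natCast, ← Real.rpow_mul (by norm_num)]
      apply Real.rpow_le_rpow_of_exponent_le (by norm_num)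
      have h10 : e / (2 * (M + 1)) * (S.F k).n * M = (e / 2 * (S.F k).n) * (M / (M + 1)) := by
        field_simp
      rw [h10]
      apply mul_le_of_le_one_right (by positivity)
      rw [div_le_one (by positivity)]
      linarith
    have t2 : ((2 : ℝ) ^ (e / (2 * (M + 1)) * (S.F k).n))⁻¹ ≤ 1 := by
      apply inv_le_one_of_one_le₀
      exact Real.one_le_rpow (by norm_num) (by positivity)
    have t3 : (S.dl c k)⁻¹ ^ 2 = 2 ^ (2 * c * (S.F k).n) := by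
      rw [dl_inv_eq, ← Real.rpow_natCast, ← Real.rpow_mul (by norm_num)]
      congr 1
      push_cast
      ring
    have t4 : (q : ℝ) * ((1 + M * K k) ^ M) ^ 2 ≤ 2 ^ (e * (S.F k).n) := by linarith
    have t5 : (0 : ℝ) ≤ q * ((1 + M * K k) ^ M) ^ 2 := by positivity
    calc 2 ^ (e / 2 * (S.F k).n) * (2 ^ (e / (2 * (M + 1)) * (S.F k).n)) ^ M *
          (2 ^ (e / (2 * (M + 1)) * (S.F k).n))⁻¹ * (q * ((1 + M * K k) ^ M) ^ 2 * (S.dl c k)⁻¹ ^ 2)
        ≤ 2 ^ (e / 2 * (S.F k).n) * 2 ^ (e / 2 * (S.F k).n) * 1 *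
          (2 ^ (e * (S.F k).n) * 2 ^ (2 * c * (S.F k).n)) := by
          rw [t3]
          apply mul_le_mul _ (mul_le_mul_of_nonneg_right t4 (by positivity)) (by positivity) (by positivity)
          apply mul_le_mul _ t2 (by positivity) (by positivity)
          exact mul_le_mul_of_nonneg_left t1 (by positivity)
      _ = 2 ^ (2 * (c + e) * (S.F k).n) := by
          rw [mul_one, ← Real.rpow_add (by norm_num), ← Real.rpow_add (by norm_num), ← Real.rpow_add (by norm_num)]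
          congr 1
          ring

/-- EXPONENTS OF ALL ADMISSIBLE FORMS OF THE WINDOW, all degrees -/
theorem udf_box [Finite ι] (hl : s.DMc c l) (h0 : ∀ i, 0 ≤ La i) (h1 : ∀ i, La i ≤ 1) {κ : ℕ}
    (hκ : ∀ k ω j, (f.P k ω j).totalDegree ≤ κ) (hv : (M : ℝ) - ∑ i, La i ≤ volO s c) {D : ℕ}
    {x : ∀ k, FD (S.F k) (Mon M D)} (hx : (gaq s.Q D).Adf (s.cnd c) x) {q : ℕ}
    (σ : Fin q → Fin M) (hσ : Function.Injective σ) (hσc : ∀ i, La (σ i) ≤ c) : UDf s.Q q c x := by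
  obtain ⟨D', hDD, hD'⟩ : ∃ D', D ≤ D' ∧ (κ + 1) ^ M ≤ D' := ⟨max D ((κ + 1) ^ M), le_max_left _ _, le_max_right _ _⟩
  obtain ⟨z, hz⟩ := s.exists_can D' c
  have h2 := UDf.low hz.1 (upx_Adf hDD hx) (udf_opt f hl h0 h1 hκ hv hD' hz.1 σ hσ hσc)
  intro e he
  have h3 : Tendsto (fun k => (x k).l.T.pb (fun ω => ¬ UDp q (Jq (S.dl 1 k) (upm hDD ((x k).g ω))
    (s.Q.v k ((x k).l.p.π ω))) (2 ^ (2 * (c + e / 2) * (S.F k).n)))) UF (𝓝 0) := h2 (e / 2) (by linarith)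
  have hc1 := nn_one M D
  have hc2 := Cm_one M D'
  have hSub : S.Sub (fun _ => nn M D * Cm M D' ^ 2) := S.Sub_const (by positivity)
  show Tendsto (fun k => (x k).l.T.pb (fun ω => ¬ UDp q (Jq (S.dl 1 k) ((x k).g ω) (s.Q.v k ((x k).l.p.π ω)))
    (2 ^ (2 * (c + e) * (S.F k).n)))) UF (𝓝 0)
  refine squeeze_zero' (Eventually.of_forall fun k => FSp.pb_nonneg _ _) ?_ h3
  filter_upwards [hx 1 one_pos, hSub.eventually_le he] with k a1 a2
  apply FSp.pb_mono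
  intro ω hω h4 h5
  apply h4
  have hC := (a1.2.1 ω hω).1
  refine UDp.mono (c := nn M D * Cm M D' ^ 2) h5 (by positivity) (fun v => ?_) ?_
  · exact Jq_upm hDD _ hC.pdM _ (S.dl_pos 1 k) _ v
  · calc nn M D * Cm M D' ^ 2 * 2 ^ (2 * (c + e / 2) * (S.F k).n) ≤
        2 ^ (e * (S.F k).n) * 2 ^ (2 * (c + e / 2) * (S.F k).n) :=
          mul_le_mul_of_nonneg_right (by linarith) (by positivity)
      _ = _ := by
          rw [← Real.rpow_add (by norm_num)]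
          congr 1
          ring

end box

end

end Pool.Agent.Helper26.CLD
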