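import Pool.Agent.Helper26.OUT.Ef

/-! FORMS OF SMALL VOLUME above the form of the rows of a triangular chart: slow directions. -/

set_option autoImplicit false

namespace Pool.Agent.Helper26.CLD

open Finset Filter Topology Matrix Pool.Agent.Helper69.RK Pool.Agent.Helper31.EC Pool.Agent.Helper31.EC.Sp
open Pool.Agent.Helper40.EL Pool.Agent.Helper89.LX Pool.Agent.Helper3.LF Pool.Agent.Helper84.MT Pool.Agent.Helper36.AM
open Pool.Agent.Helper95.LF Pool.Agent.Helper7.GZ Pool.Agent.Helper26.OUT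

noncomputable section

variable {M : ℕ}

/-- slow directions in a subspace -/
theorem UDp_sub {q : ℕ} {G : Matrix (Fin M) (Fin M) ℝ} {B : ℝ} (u : Fin q → Fin M → ℝ)
    (hu : ∀ a : Fin q → ℝ, (fun j => ∑ i, a i * u i j) = 0 → a = 0)
    (h : ∀ a : Fin q → ℝ, (fun j => ∑ i, a i * u i j) ⬝ᵥ (G *ᵥ (fun j => ∑ i, a i * u i j)) ≤
      B * ((fun j => ∑ i, a i * u i j) ⬝ᵥ (fun j => ∑ i, a i * u i j))) : UDp q G B := by
  obtain ⟨A, hA⟩ := exists_on u hu
  refine ⟨fun i l => ∑ t, A i t * u t l, hA, fun i => ?_⟩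
  have h1 := h (A i)
  rw [hA, if_pos rfl, mul_one] at h1
  exact h1

/-- a form above `J^T J / κ` of small determinant is below `J^T J`, up to the constants -/
theorem qf_le_of_det {G J : Matrix (Fin M) (Fin M) ℝ} (hG : G.IsSymm) (hJ : IsUnit J.det) {κ β : ℝ} (hκ : 0 < κ)
    (h : ∀ v, (J *ᵥ v) ⬝ᵥ (J *ᵥ v) ≤ κ * (v ⬝ᵥ (G *ᵥ v))) (hd : G.det ≤ β * J.det ^ 2) (v : Fin M → ℝ) :
    v ⬝ᵥ (G *ᵥ v) ≤ (β * κ ^ M * κ⁻¹) * ((J *ᵥ v) ⬝ᵥ (J *ᵥ v)) := by
  have hinj : ∀ v, J *ᵥ v = 0 → v = 0 := by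
    intro v hv
    have h2 : J⁻¹ *ᵥ (J *ᵥ v) = v := by
      rw [Matrix.mulVec_mulVec, Matrix.nonsing_inv_mul _ hJ, Matrix.one_mulVec]
    rw [← h2, hv, Matrix.mulVec_zero]
  have hA0 : ∀ v, v ⬝ᵥ ((J.transpose * J) *ᵥ v) = (J *ᵥ v) ⬝ᵥ (J *ᵥ v) := by
    intro v
    rw [← Matrix.mulVec_mulVec, Matrix.dotProduct_mulVec, Matrix.vecMul_transpose]
  have hA : PdM (J.transpose * J) := by
    refine ⟨?_, fun v hv => ?_⟩
    · unfold Matrix.IsSymm
      rw [Matrix.transpose_mul, Matrix.transpose_transpose]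
    · rw [hA0]
      exact self_pos fun h0 => hv (hinj v h0)
  have hA' : PdM (κ⁻¹ • (J.transpose * J)) := hA.smul (inv_pos.2 hκ)
  have h1 : ∀ x, x ⬝ᵥ ((κ⁻¹ • (J.transpose * J)) *ᵥ x) ≤ x ⬝ᵥ (G *ᵥ x) := by
    intro x
    rw [dv_smul, hA0, inv_mul_le_iff₀ hκ]
    exact h x
  have h2 : G.det ≤ (β * κ ^ M) * (κ⁻¹ • (J.transpose * J)).det := by
    rw [Matrix.det_smul, Matrix.det_mul, Matrix.det_transpose, Fintype.card_fin]
    refine hd.trans (le_of_eq ?_)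
    have h3 : κ ^ M * κ⁻¹ ^ M = 1 := by rw [← mul_pow, mul_inv_cancel₀ hκ.ne', one_pow]
    calc β * J.det ^ 2 = β * (κ ^ M * κ⁻¹ ^ M) * J.det ^ 2 := by rw [h3, mul_one]
      _ = _ := by ring
  have h4 := le_of_det_le hA' hG h1 h2 v
  rw [dv_smul, hA0] at h4
  refine h4.trans (le_of_eq ?_)
  ring

/-- gradients of the inverse of a triangular chart -/
theorem inv_grad {P : Fin M → MvPolynomial (Fin M) ℝ} (tri : ∀ j, ∀ i ∈ (P j).vars, i < j) (x v : Fin M → ℝ) {L V : ℝ}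
    (hL0 : 0 ≤ L)
    (hL : ∀ i j, |MvPolynomial.eval (fun i => MvPolynomial.eval x (inv P i)) (MvPolynomial.pderiv i (P j))| ≤ L)
    (hV : ∀ i, |v i| ≤ V) : ∀ (n : ℕ) (j : Fin M), (j : ℕ) < n →
      |MvPolynomial.eval x (dir v (inv P j))| ≤ (1 + M * L) ^ n * V := by
  intro n
  induction n with
  | zero => intro j hj; omega
  | succ n ih =>
    intro j hj
    have hV0 : 0 ≤ V := (abs_nonneg _).trans (hV j)
    have h1 := inv_dir tri x v j
    have h2 : MvPolynomial.eval x (dir v (inv P j)) = v j -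
        ∑ i, MvPolynomial.eval (fun i => MvPolynomial.eval x (inv P i)) (MvPolynomial.pderiv i (P j)) *
          MvPolynomial.eval x (dir v (inv P i)) := by linarith
    rw [h2]
    refine (abs_sub _ _).trans ?_
    have h3 : |∑ i, MvPolynomial.eval (fun i => MvPolynomial.eval x (inv P i)) (MvPolynomial.pderiv i (P j)) *
          MvPolynomial.eval x (dir v (inv P i))| ≤ M * (L * ((1 + M * L) ^ n * V)) := by
      refine (Finset.abs_sum_le_sum_abs _ _).trans ?_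
      have h4 : ∀ i ∈ (Finset.univ : Finset (Fin M)),
          |MvPolynomial.eval (fun i => MvPolynomial.eval x (inv P i)) (MvPolynomial.pderiv i (P j)) *
          MvPolynomial.eval x (dir v (inv P i))| ≤ L * ((1 + M * L) ^ n * V) := by
        intro i _
        rw [abs_mul]
        by_cases hi : i ∈ (P j).vars
        · have h5 : i < j := tri j i hi
          exact mul_le_mul (hL i j) (ih i (by have : (i : ℕ) < j := h5; omega)) (abs_nonneg _) hL0
        · rw [MvPolynomial.pderiv_eq_zero_of_notMem_vars hi, map_zero, abs_zero, zero_mul]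
          positivity
      have h5 := Finset.sum_le_card_nsmul _ _ _ h4
      rwa [Finset.card_univ, Fintype.card_fin, nsmul_eq_mul] at h5
    have h6 := hV j
    have h7 : (1 : ℝ) ≤ (1 + M * L) ^ n := one_le_pow₀ (by
      have : (0 : ℝ) ≤ M * L := by positivity
      linarith)
    have h8 : V ≤ (1 + M * L) ^ n * V := le_mul_of_one_le_left hV0 h7
    calc |v j| + |∑ i, MvPolynomial.eval (fun i => MvPolynomial.eval x (inv P i)) (MvPolynomial.pderiv i (P j)) *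
          MvPolynomial.eval x (dir v (inv P i))| ≤ (1 + M * L) ^ n * V + M * (L * ((1 + M * L) ^ n * V)) := by linarith
      _ = (1 + M * L) ^ (n + 1) * V := by ring

/-- SLOW DIRECTIONS of a form `G` above the form of the rows, of small determinant -/
theorem UDp_rows {P : Fin M → MvPolynomial (Fin M) ℝ} (tri : ∀ j, ∀ i ∈ (P j).vars, i < j) (x d : Fin M → ℝ)
    (hd : ∀ i, 0 < d i) {L : ℝ} (hL0 : 0 ≤ L)
    (hL : ∀ i j, |MvPolynomial.eval (fun i => MvPolynomial.eval x (inv P i)) (MvPolynomial.pderiv i (P j))| ≤ L)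
    {G : Matrix (Fin M) (Fin M) ℝ} (hG : G.IsSymm) {κ β : ℝ} (hκ : 0 < κ) (hβ : 0 ≤ β)
    (h : ∀ v, dP (fun i => MvPolynomial.C (d i)⁻¹ * inv P i) x v ⬝ᵥ dP (fun i => MvPolynomial.C (d i)⁻¹ * inv P i) x v ≤
      κ * (v ⬝ᵥ (G *ᵥ v))) (hdet : G.det ≤ β * (∏ i, (d i)⁻¹) ^ 2) {q : ℕ} (σ : Fin q → Fin M)
    (hσ : Function.Injective σ) {δ : ℝ} (hδ : 0 < δ) (hσd : ∀ i, δ ≤ d (σ i)) :
    UDp q G ((β * κ ^ M * κ⁻¹) * (q * ((1 + M * L) ^ M) ^ 2 * (δ⁻¹) ^ 2)) := by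
  classical
  obtain ⟨J, hJ⟩ : ∃ J, J = jac (fun i => MvPolynomial.C (d i)⁻¹ * inv P i) x := ⟨_, rfl⟩
  have hJd : J.det = ∏ i, (d i)⁻¹ := by rw [hJ]; exact jac_inv tri (fun i => (d i)⁻¹) x
  have hJ0 : J.det ≠ 0 := by
    rw [hJd]
    exact Finset.prod_ne_zero_iff.2 fun i _ => inv_ne_zero (hd i).ne'
  have hu : IsUnit J.det := isUnit_iff_ne_zero.2 hJ0
  have hJv : ∀ v, J *ᵥ v = dP (fun i => MvPolynomial.C (d i)⁻¹ * inv P i) x v := fun v => by rw [hJ]; exact jac_mul _ _ _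
  have h1 := qf_le_of_det hG hu hκ (fun v => by rw [hJv]; exact h v) (by rw [hJd]; exact hdet)
  have hc0 : 0 ≤ β * κ ^ M * κ⁻¹ := by positivity
  -- the directions
  have hcomb : ∀ a : Fin q → ℝ, J *ᵥ (fun j => ∑ i, a i * (J⁻¹ *ᵥ (Pi.single (σ i) (1 : ℝ))) j) =
      fun j => ∑ i, a i * (Pi.single (σ i) (1 : ℝ) : Fin M → ℝ) j := by
    intro a
    have e1 : (fun j => ∑ i, a i * (J⁻¹ *ᵥ (Pi.single (σ i) (1 : ℝ))) j) =
        ∑ i, a i • (J⁻¹ *ᵥ (Pi.single (σ i) (1 : ℝ))) := by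
      funext j
      rw [Finset.sum_apply]
      rfl
    rw [e1, Matrix.mulVec_sum]
    funext j
    rw [Finset.sum_apply]
    refine Finset.sum_congr rfl fun i _ => ?_
    rw [Matrix.mulVec_smul, Matrix.mulVec_mulVec, Matrix.mul_nonsing_inv _ hu, Matrix.one_mulVec]
    rfl
  have hval : ∀ (a : Fin q → ℝ) (i : Fin q), (fun j => ∑ i, a i * (Pi.single (σ i) (1 : ℝ) : Fin M → ℝ) j) (σ i) =
      a i := by
    intro a i
    show ∑ i', a i' * (Pi.single (σ i') (1 : ℝ) : Fin M → ℝ) (σ i) = a i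
    rw [Finset.sum_eq_single i]
    · rw [Pi.single_eq_same, mul_one]
    · intro i' _ hi
      rw [Pi.single_eq_of_ne (fun h => hi (hσ h).symm), mul_zero]
    · intro h
      exact absurd (Finset.mem_univ i) h
  have hnorm : ∀ a : Fin q → ℝ, (fun j => ∑ i, a i * (Pi.single (σ i) (1 : ℝ) : Fin M → ℝ) j) ⬝ᵥ
      (fun j => ∑ i, a i * (Pi.single (σ i) (1 : ℝ) : Fin M → ℝ) j) = ∑ i, a i ^ 2 := by
    intro a
    have e2 : ∀ y : Fin M → ℝ, (fun j => ∑ i, a i * (Pi.single (σ i) (1 : ℝ) : Fin M → ℝ) j) ⬝ᵥ y =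
        ∑ i, a i * y (σ i) := by
      intro y
      unfold dotProduct
      simp only [Finset.sum_mul]
      rw [Finset.sum_comm]
      refine Finset.sum_congr rfl fun i _ => ?_
      rw [Finset.sum_eq_single (σ i)]
      · rw [Pi.single_eq_same, mul_one]
      · intro j _ hj
        rw [Pi.single_eq_of_ne hj, mul_zero, zero_mul]
      · intro h
        exact absurd (Finset.mem_univ _) h
    rw [e2]
    refine Finset.sum_congr rfl fun i _ => ?_
    have e3 : ∑ i', a i' * (Pi.single (σ i') (1 : ℝ) : Fin M → ℝ) (σ i) = a i := hval a i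
    show a i * ∑ i', a i' * (Pi.single (σ i') (1 : ℝ) : Fin M → ℝ) (σ i) = a i ^ 2
    rw [e3]
    ring
  apply UDp_sub (fun i => J⁻¹ *ᵥ (Pi.single (σ i) (1 : ℝ)))
  · intro a ha
    funext i
    have h2 := hcomb a
    rw [ha, Matrix.mulVec_zero] at h2
    have h3 := congrFun h2 (σ i)
    exact (hval a i).symm.trans h3.symm
  · intro a
    obtain ⟨v, hv⟩ : ∃ v : Fin M → ℝ, v = fun j => ∑ i, a i * (J⁻¹ *ᵥ (Pi.single (σ i) (1 : ℝ))) j := ⟨_, rfl⟩
    rw [← hv]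
    refine (h1 v).trans ?_
    rw [mul_assoc (β * κ ^ M * κ⁻¹) _ (v ⬝ᵥ v)]
    apply mul_le_mul_of_nonneg_left _ hc0
    have hJJ : (J *ᵥ v) ⬝ᵥ (J *ᵥ v) = ∑ i, a i ^ 2 := by rw [hv, hcomb, hnorm]
    rw [hJJ]
    -- the coordinates of `J v`
    have h4 : ∀ i ∈ (Finset.univ : Finset (Fin q)), a i ^ 2 ≤ ((1 + M * L) ^ M) ^ 2 * (δ⁻¹) ^ 2 * (v ⬝ᵥ v) := by
      intro i _
      have h5 : a i = (J *ᵥ v) (σ i) := by
        rw [hv, hcomb]
        exact (hval a i).symm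
      have h6 : (J *ᵥ v) (σ i) = (d (σ i))⁻¹ * MvPolynomial.eval x (dir v (inv P (σ i))) := by
        rw [hJv]
        unfold dP
        rw [eval_dir2, eval_dir2, Finset.mul_sum]
        refine Finset.sum_congr rfl fun a _ => ?_
        rw [MvPolynomial.pderiv_C_mul, map_mul, MvPolynomial.eval_C]
        ring
      have hvv : 0 ≤ v ⬝ᵥ v := self_nonneg' v
      have h7 := inv_grad tri x v hL0 hL (V := Real.sqrt (v ⬝ᵥ v)) (fun i => by
        apply Real.abs_le_sqrt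
        have h8 := Finset.single_le_sum (f := fun i => v i * v i) (fun i _ => mul_self_nonneg _) (Finset.mem_univ i)
        rw [pow_two]
        exact h8) M (σ i) (σ i).2
      have h8 : (d (σ i))⁻¹ ≤ δ⁻¹ := inv_anti₀ hδ (hσd i)
      have h9 : 0 < (d (σ i))⁻¹ := inv_pos.2 (hd _)
      have hk : (0 : ℝ) ≤ (1 + M * L) ^ M * Real.sqrt (v ⬝ᵥ v) := by positivity
      rw [h5, h6, ← sq_abs, abs_mul, abs_of_pos h9]
      calc ((d (σ i))⁻¹ * |MvPolynomial.eval x (dir v (inv P (σ i)))|) ^ 2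
          ≤ (δ⁻¹ * ((1 + M * L) ^ M * Real.sqrt (v ⬝ᵥ v))) ^ 2 := by
            apply pow_le_pow_left₀ (mul_nonneg h9.le (abs_nonneg _))
            exact mul_le_mul h8 h7 (abs_nonneg _) (inv_pos.2 hδ).le
        _ = ((1 + M * L) ^ M) ^ 2 * (δ⁻¹) ^ 2 * (Real.sqrt (v ⬝ᵥ v)) ^ 2 := by ring
        _ = _ := by rw [Real.sq_sqrt hvv]
    have h5 := Finset.sum_le_card_nsmul _ _ _ h4
    rw [Finset.card_univ, Fintype.card_fin, nsmul_eq_mul] at h5
    refine h5.trans (le_of_eq ?_)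
    ring

end

end Pool.Agent.Helper26.CLD
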