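import Pool.Agent.Helper26.CLD.Trn

/-! Systems of the class `(D_k)` with a frame: at least `k` weights are one. -/

set_option autoImplicit false

namespace Pool.Agent.Helper26.CLD

open Finset Filter Topology Matrix MvPolynomial Pool.Agent.Helper69.RK Pool.Agent.Helper31.EC Pool.Agent.Helper31.EC.Sp
open Pool.Agent.Helper40.EL Pool.Agent.Helper89.LX Pool.Agent.Helper3.LF Pool.Agent.Helper84.MT Pool.Agent.Helper36.AM
open Pool.Agent.Helper81.DC

noncomputable section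

variable {S : Sp} {M : ℕ} {E : ℕ → ℕ} {ι : Type}

/-- one system, one window -/
theorem le_nd1 [Finite ι] {q : ℕ} {s : MSys S M E ι} {w : Fin M → ℝ} {c W : ℝ} (hc : 0 < c) (h1 : ∀ i, 1 ≤ w i)
    (hW : ∀ i, w i ≤ W) (hWc : W * c ≤ 1) {l : Lab S} (hl : s.DMc c l) (f : Frm s.Q l (fun j => w j * c))
    (hud : ∀ (D : ℕ) (x : ∀ n, FD (S.F n) (Mon M D)), (gaq s.Q D).Adf (s.cnd c) x → UDf s.Q q c x) :
    q ≤ nd1 w := by
  classical
  by_contra hk
  rw [not_le] at hk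
  have hκ : ∀ k ω j, (f.P k ω j).totalDegree ≤ ⌈W⌉₊ := fun k ω j => f.deg hc h1 hW k ω j
  obtain ⟨D, hD⟩ : ∃ D, D = (⌈W⌉₊ + 1) ^ M := ⟨_, rfl⟩
  have hrd : ∀ k ω i, (f.row k ω i).totalDegree ≤ D := fun k ω i => by rw [hD]; exact f.row_deg hκ k ω i
  obtain ⟨K, hK, hb⟩ := f.row_bd (fun i => by have := h1 i; positivity) (fun i => by
    have := mul_le_mul_of_nonneg_right (hW i) hc.le
    linarith) hκ D
  have hAd := rwx_Adf (A := s.cnd c) hl s.Q f.row hrd f.row_ms hK (by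
    refine typ_mono (S := l.sp) (Typ_true (S := l.sp)) ?_
    filter_upwards [hb] with n hn ω hω _
    exact (hn ω hω).1)
  have hy := hud D _ hAd
  obtain ⟨ws, hws1, hws⟩ : ∃ ws : ℝ, 1 < ws ∧ ∀ j, w j ≠ 1 → ws ≤ w j := by
    by_cases hne : (univ.filter fun j => w j ≠ 1).Nonempty
    · obtain ⟨j, hj, hmin⟩ := Finset.exists_min_image _ w hne
      refine ⟨w j, lt_of_le_of_ne (h1 j) (fun h' => (Finset.mem_filter.1 hj).2 h'.symm), fun i hi => ?_⟩
      exact hmin i (Finset.mem_filter.2 ⟨Finset.mem_univ i, hi⟩)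
    · refine ⟨2, by norm_num, fun j hj => ?_⟩
      exact absurd ⟨j, Finset.mem_filter.2 ⟨Finset.mem_univ j, hj⟩⟩ hne
  obtain ⟨δ, hδ⟩ : ∃ δ, δ = (ws - 1) * c := ⟨_, rfl⟩
  have hδ0 : 0 < δ := by rw [hδ]; exact mul_pos (by linarith) hc
  have hC : S.Sub (fun n => (M : ℝ) * ((1 + (M : ℝ) * K n) ^ 2 * q)) :=
    (S.Sub_const (Nat.cast_nonneg _)).mul ((Sub_pow' ((S.Sub_const zero_le_one).add
      ((S.Sub_const (Nat.cast_nonneg _)).mul hK)) 2).mul (S.Sub_const (Nat.cast_nonneg _)))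
  obtain ⟨K', hK', hgood⟩ := rwx_good l s.Q f.row hrd f.row_ms hK
  have hex := typ_ex (hy (δ / 2) (by linarith))
  have hev := hex.and (hb.and (hgood.and (hK.1.and (hC.eventually_le hδ0))))
  obtain ⟨n, ⟨ω, hω, hU⟩, hb', hg', hK0, hlast⟩ := hev.exists
  have hn := (S.F n).pos
  have hω' : (l n).T.μ ω ≠ 0 := hω
  obtain ⟨v, orth, hv⟩ := hU
  have hgω := ((hg' ω hω').2 (hb' ω hω').1).1
  have hfin := fin_dim (f.tri n ω) (s.Q.v n ((l n).p.π ω)) (fun i => S.dl (w i * c) n) (fun i => S.dl_pos _ _)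
    (univ.filter fun j => w j = 1) (show (univ.filter fun j => w j = 1).card < q from by
      unfold nd1 at hk
      exact hk) (S.dl_pos (ws * c) n).le
    (fun i hi => by
      apply S.dl_anti
      apply mul_le_mul_of_nonneg_right _ hc.le
      exact hws i (fun h' => hi (Finset.mem_filter.2 ⟨Finset.mem_univ i, h'⟩))) v orth
    (B := 2 ^ (2 * (c + δ / 2) * (S.F n).n)) (by positivity) hK0 (fun a => by
      have h3 := rwm_Jq (D := D) (f.row n ω) (fun i => hrd n ω i) (S.dl 1 n) (s.Q.v n ((l n).p.π ω)) (v a)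
      rw [← hgω] at h3
      exact h3.trans (hv a)) (fun i j => (hb' ω hω').2 i j)
  have e1 : (M : ℝ) * ((1 + (M : ℝ) * K n) ^ 2 * (S.dl (ws * c) n) ^ 2 *
      (q * 2 ^ (2 * (c + δ / 2) * (S.F n).n))) = ((M : ℝ) * ((1 + (M : ℝ) * K n) ^ 2 * q)) *
        2 ^ (-(δ * (S.F n).n)) := by
    have e2 : (S.dl (ws * c) n) ^ 2 * 2 ^ (2 * (c + δ / 2) * (S.F n).n) = 2 ^ (-(δ * (S.F n).n)) := by
      unfold Sp.dl
      rw [← Real.rpow_natCast, ← Real.rpow_mul (by norm_num), ← Real.rpow_add (by norm_num)]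
      congr 1
      rw [hδ]
      push_cast
      ring
    rw [← e2]
    ring
  rw [e1] at hfin
  have h4 : ((M : ℝ) * ((1 + (M : ℝ) * K n) ^ 2 * q)) * 2 ^ (-(δ * (S.F n).n)) ≤
      (2 ^ (δ * (S.F n).n) - 2) * 2 ^ (-(δ * (S.F n).n)) :=
    mul_le_mul_of_nonneg_right (by linarith) (by positivity)
  have h5 : (2 : ℝ) ^ (δ * (S.F n).n) * 2 ^ (-(δ * (S.F n).n)) = 1 := by
    rw [← Real.rpow_add (by norm_num)]
    norm_num
  have h6 : (0 : ℝ) < 2 ^ (-(δ * (S.F n).n)) := by positivity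
  nlinarith

/-- systems of the class `(D_k)` with a frame have at least `k` weights one -/
theorem dk_le_nd1 {q g r : ℕ} {s : MSys S M (lin g) (Fin r)} (hs : DK M q S g r s) {w : Fin M → ℝ} {c W : ℝ}
    (hc : 0 < c) (h1 : ∀ i, 1 ≤ w i) (hW : ∀ i, w i ≤ W) (hWc : W * c ≤ 1) (hc1 : c ≤ 1) {l : Lab S} (hl : s.DMc c l)
    (f : Frm s.Q l (fun j => w j * c)) : q ≤ nd1 w :=
  le_nd1 hc h1 hW hWc hl f fun D x hx => DK_iff.mp hs D c hc.le hc1 x hx

end

end Pool.Agent.Helper26.CLD
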