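import Pool.Agent.Helper26.CLD.Box
import Pool.Agent.Helper81.DC.Trn

/-! TRUNCATIONS OF SYSTEMS WITH BOXES are in the class `(D_k)`, `k` the number of weights one. -/

set_option autoImplicit false

namespace Pool.Agent.Helper26.CLD

open Finset Filter Topology Matrix Pool.Agent.Helper69.RK Pool.Agent.Helper31.EC Pool.Agent.Helper31.EC.Sp
open Pool.Agent.Helper40.EL Pool.Agent.Helper89.LX Pool.Agent.Helper3.LF Pool.Agent.Helper84.MT Pool.Agent.Helper36.AM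
open Pool.Agent.Helper95.LF Pool.Agent.Helper7.GZ Pool.Agent.Helper26.OUT Pool.Agent.Helper81.DC
open Pool.Agent.Helper3.PR (cutm cutFD cut_typ)
open Pool.Agent.Helper14.MC (adf_sub)
open Pool.Agent.Helper52.SL (untL untF)

noncomputable section

variable {S T : Sp} {M : ℕ} {E : ℕ → ℕ} {ι κ : Type}

/-- typical property of all admissible forms of the windows up to `c₀` -/
def PTw (pr : Prp M) (s : MSys S M E ι) (c₀ : ℝ) : Prop := ∀ (D : ℕ) (c : ℝ), 0 ≤ c → c ≤ c₀ →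
  ∀ x : ∀ n, FD (S.F n) (Mon M D), (gaq s.Q D).Adf (s.cnd c) x → PTf pr s.Q c x

theorem PTw_one {pr : Prp M} {s : MSys S M E ι} : PTw pr s 1 ↔ PTs pr s := Iff.rfl

theorem PTw.anti {pr : Prp M} {s : MSys S M E ι} {a b : ℝ} (h : PTw pr s b) (hab : a ≤ b) : PTw pr s a :=
  fun D c h0 h1 x hx => h D c h0 (h1.trans hab) x hx

/-- TRUNCATIONS: only the windows up to the level are used -/
theorem PTw.trn [Finite ι] {pr : Prp M} (hpr : ShP pr) {s : MSys S M E ι} (r : ℝ) (h : PTw pr s r) (h0 : 0 < r)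
    (h1 : r ≤ 1) : PTs pr (s.trn r h0 h1) := by
  intro D b hb0 hb1 x hx e he
  set l : Lab S := untL (lb x) with hl
  have hdm : s.DMc (r * b) l := MSys.DMc.of_trn (h1 := h1) le_rfl (Gau.Adf.dm _ hx)
  set g : ∀ k, (l k).T.Ω → Matrix (Mon M D) (Mon M D) ℝ :=
    fun k ω => shm (S.dl r k) ((x k).g ω) with hg
  have hm : ∀ k ω ω', (l k).T.μ ω ≠ 0 → (l k).T.μ ω' ≠ 0 → (l k).V ω ω' → (l k).T.Z ω ω' → g k ω = g k ω' := by
    intro k ω ω' a b' c d
    show shm _ _ = shm _ _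
    rw [((x k).meas ω ω' a b' c d).1]
  have hcpd : ∀ᶠ k in UF, ∀ ω, (x k).l.T.μ ω ≠ 0 → ((x k).g ω).IsSymm ∧
      ∀ v, v ⬝ᵥ v ≤ v ⬝ᵥ ((x k).g ω *ᵥ v) := by
    filter_upwards [hx 1 one_pos] with k hk ω hω
    exact ⟨(hk.2.1 ω hω).1.1, (hk.2.1 ω hω).1.2.1⟩
  have hge : ∀ᶠ k in UF, ∀ ω, (l k).T.μ ω ≠ 0 → (g k ω).IsSymm ∧ ∀ v, v ⬝ᵥ v ≤ qf (g k ω) v := by
    filter_upwards [hcpd] with k hk ω hω
    have h2 := hk ω hω
    refine ⟨shm_symm _ h2.1, fun v => (h2.2 v).trans ?_⟩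
    exact shm_ge _ (fun x => (dot_self_nonneg x).trans (h2.2 x)) v
  have hdl : ∀ k, (S.chg S.tr r h0).dl 1 k = S.dl r k := fun k => by rw [chg_dl, mul_one]
  obtain ⟨K, hK, hT⟩ := adf_sub hx
  set c0 : ℝ := nn M D * (nn M D * (Cu D * Cm M D * 2 ^ D) ^ 2) with hc0
  have hc0' : 0 ≤ c0 := by
    have := nn_one M D
    positivity
  have hT1 : Tendsto (fun k => (x k).l.T.pb (fun ω => ¬ phi ((S.chg S.tr r h0).dl 1 k) ((x k).g ω)
    (s.Q.v k ((x k).l.p.π ω)) ≤ K k)) UF (𝓝 0) := hT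
  have hT' : Sp.Typ (S := l.sp) (fun k (ω : (l k).T.Ω) => (gaq s.Q D).φ k ((l k).p.π ω) (g k ω) ≤ c0 * K k) := by
    show Tendsto (fun k => (l k).T.pb (fun ω => ¬ phi (S.dl 1 k) (g k ω) (s.Q.v k ((l k).p.π ω)) ≤ c0 * K k)) UF (𝓝 0)
    refine squeeze_zero' (Eventually.of_forall fun k => (l k).T.pb_nonneg _) ?_ hT1
    filter_upwards [hcpd] with k hk
    apply (l k).T.pb_mono
    intro ω hω h3 h4
    apply h3
    have h5 := hk ω hω
    rw [hdl] at h4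
    have h6 := shm_phi (pdM_of_one_le h5.1 h5.2) (S.dl_pos 1 k) (S.dl_anti h1 k) (s.Q.v k ((x k).l.p.π ω))
    refine le_trans h6 ?_
    rw [← mul_assoc]
    exact mul_le_mul_of_nonneg_left h4 hc0'
  have hKs : S.Sub (fun k => c0 * K k) := (S.Sub_const hc0').mul (sub_of_chg hK)
  have hy := cut_adf (Φ := gaq s.Q D) (A := s.cnd (r * b)) l hdm g hm hge _ hKs hT'
  have hcut := cut_typ (Φ := gaq s.Q D) l g hge _ hKs hT'
  have hrb0 : 0 ≤ r * b := mul_nonneg h0.le hb0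
  have hrb1 : r * b ≤ r := mul_le_of_le_one_right h0.le hb1
  have h3 := h D (r * b) hrb0 hrb1 _ hy (r * e) (mul_pos h0 he)
  have h4 : Tendsto (fun k => (l k).T.pb (fun ω => ¬ (pr D (S.dl 1 k) (cutm ((gaq s.Q D).cp k) (g k ω))
    (s.Q.v k ((l k).p.π ω)) (2 ^ (2 * (r * b + r * e) * (S.F k).n)) ∧ Cpd ((gaq s.Q D).cp k) (g k ω)))) UF (𝓝 0) :=
    typ_and (S := l.sp) h3 hcut
  show Tendsto (fun k => (x k).l.T.pb (fun ω => ¬ pr D ((S.chg S.tr r h0).dl 1 k) ((x k).g ω)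
    (s.Q.v k ((x k).l.p.π ω)) (2 ^ (2 * (b + e) * (r * (S.F k).n))))) UF (𝓝 0)
  refine squeeze_zero' (Eventually.of_forall fun k => (x k).l.T.pb_nonneg _) ?_ h4
  filter_upwards [hcpd] with k hk
  refine (x k).l.T.pb_mono ?_
  intro ω hω h5 h6
  apply h5
  have h7 := hk ω hω
  have h8 := h6.1
  have e1 : cutm ((gaq s.Q D).cp k) (g k ω) = g k ω := cutm_pos h6.2
  rw [e1] at h8
  rw [hdl]
  have h9 := hpr D ((x k).g ω) h7.1 h7.2 (S.dl r k) (S.dl 1 k) _ _ (S.dl_pos 1 k) (S.dl_anti h1 k) h8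
  have e2 : 2 * (r * b + r * e) * (S.F k).n = 2 * (b + e) * (r * (S.F k).n) := by ring
  rw [e2] at h9
  exact h9

/-- the class `(D_k)`: it is enough to consider the windows `0 < c` -/
theorem PTw_pos [Finite ι] {q : ℕ} {s : MSys S M E ι} {c₀ : ℝ} (hc₀ : 0 < c₀) (h : ∀ (D : ℕ) (c : ℝ), 0 < c → c ≤ c₀ →
    ∀ x : ∀ n, FD (S.F n) (Mon M D), (gaq s.Q D).Adf (s.cnd c) x → UDf s.Q q c x) : PTw (prU M q) s c₀ := by
  intro D c h0 h1 x hx
  rcases h0.eq_or_lt with h2 | h2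
  · subst h2
    intro e he
    have hm : 0 < min c₀ (e / 2) := lt_min hc₀ (by linarith)
    have hx' : (gaq s.Q D).Adf (s.cnd (min c₀ (e / 2))) x := by
      refine Gau.Adf_iff.2 ⟨?_, hx.fm⟩
      exact MSys.DMc.mono hm.le (Gau.Adf.dm _ hx)
    have h3 : Tendsto (fun k => (x k).l.T.pb (fun ω => ¬ UDp q (Jq (S.dl 1 k) ((x k).g ω) (s.Q.v k ((x k).l.p.π ω)))
      (2 ^ (2 * (min c₀ (e / 2) + e / 2) * (S.F k).n)))) UF (𝓝 0) := h D _ hm (min_le_left _ _) x hx' (e / 2) (by linarith)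
    show Tendsto (fun k => (x k).l.T.pb (fun ω => ¬ UDp q (Jq (S.dl 1 k) ((x k).g ω) (s.Q.v k ((x k).l.p.π ω)))
      (2 ^ (2 * (0 + e) * (S.F k).n)))) UF (𝓝 0)
    refine squeeze_zero (fun k => FSp.pb_nonneg _ _) (fun k => ?_) h3
    apply FSp.pb_mono
    intro ω hω h4 h5
    apply h4
    refine UDp.mono (c := 1) h5 zero_le_one (fun v => by rw [one_mul]) ?_
    rw [one_mul]
    apply Real.rpow_le_rpow_of_exponent_le (by norm_num)
    apply mul_le_mul_of_nonneg_right _ (S.F k).pos.le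
    have := min_le_right c₀ (e / 2)
    linarith
  · exact h D c h2 h1 x hx

/-- BOXES: the system has boxes with the weights `w` at the windows up to `c₀` -/
def Bxs [Finite ι] (s : MSys S M E ι) (w : Fin M → ℝ) (c₀ : ℝ) : Prop := ∀ c : ℝ, 0 < c → c ≤ c₀ →
  (M : ℝ) - (∑ j, w j) * c ≤ volO s c ∧ ∃ (l : Lab S) (_ : Frm s.Q l (fun j => w j * c)), s.DMc c l

/-- systems with boxes have `nd1 w` exponents `c` at the windows `c` up to `c₀` -/
theorem Bxs.udf [Finite ι] {s : MSys S M E ι} {w : Fin M → ℝ} {c₀ : ℝ} (hc₀ : 0 < c₀) (h : Bxs s w c₀)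
    (h1 : ∀ i, 1 ≤ w i) {W : ℝ} (hW : ∀ i, w i ≤ W) (hWc : W * c₀ ≤ 1) : PTw (prU M (nd1 w)) s c₀ := by
  classical
  apply PTw_pos hc₀
  intro D c hc hcc x hx
  obtain ⟨hv, l, f, hl⟩ := h c hc hcc
  have e1 : nd1 w = (univ.filter fun j => w j = 1).card := by
    unfold nd1
    congr 1
  have h2 : ∀ q : ℕ, q = (univ.filter fun j => w j = 1).card → UDf s.Q q c x := by
    rintro q rfl
    refine udf_box f hl (fun i => ?_) (fun i => ?_) (fun k ω j => f.deg hc h1 hW k ω j) ?_ hx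
      ((univ.filter fun j => w j = 1).orderEmbOfFin rfl) (Finset.orderEmbOfFin _ _).injective (fun i => ?_)
    · exact mul_nonneg (zero_le_one.trans (h1 i)) hc.le
    · have h3 := mul_le_mul (hW i) hcc hc.le ((zero_le_one.trans (h1 i)).trans (hW i))
      exact h3.trans hWc
    · rw [← Finset.sum_mul]
      exact hv
    · have h3 := Finset.orderEmbOfFin_mem (univ.filter fun j => w j = 1) rfl i
      rw [Finset.mem_filter] at h3
      rw [h3.2, one_mul]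
  exact h2 _ e1

/-- DK FOR TRUNCATIONS of systems with boxes -/
theorem Bxs.dk_trn {g r : ℕ} {s : MSys S M (lin g) (Fin r)} {w : Fin M → ℝ} {e : ℝ} (he : 0 < e) (he1 : e ≤ 1)
    (h : Bxs s w e) (h1 : ∀ i, 1 ≤ w i) {W : ℝ} (hW : ∀ i, w i ≤ W) (hWe : W * e ≤ 1) :
    DK M (nd1 w) (S.chg S.tr e he) g r (s.trn e he he1) :=
  DK_iff.mpr (PTw.trn (prU_ShP _) e (h.udf he h1 hW hWe) he he1)

theorem PTs_anti {q q' : ℕ} (hq : q ≤ q') {s : MSys S M E ι} (h : PTs (prU M q') s) : PTs (prU M q) s := by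
  intro D c h0 h1 x hx e he
  refine typ_mono (S := (lb x).sp) (h D c h0 h1 x hx e he) (Eventually.of_forall fun k ω _ h2 => ?_)
  obtain ⟨v, h3, h4⟩ := h2
  refine ⟨fun i => v (Fin.castLE hq i), fun i j => ?_, fun i => h4 _⟩
  rw [h3]
  by_cases hij : i = j
  · rw [if_pos hij, if_pos (by rw [hij])]
  · rw [if_neg hij, if_neg (fun h => hij (Fin.castLE_injective hq h))]

theorem DK_anti {q q' g r : ℕ} (hq : q ≤ q') {s : MSys S M (lin g) (Fin r)} (h : DK M q' S g r s) : DK M q S g r s :=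
  DK_iff.mpr (PTs_anti hq (DK_iff.mp h))

end

end Pool.Agent.Helper26.CLD
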